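import Pool.Agent.Work.MP_f714fc_ag.Geo.Final

/-!
MP_f714fc_ag, Q2: the Fano dimension is not lower semicontinuous in families.

The definitions are in `Work/MP_f714fc_ag/Geo/Defs.lean` and `Work/MP_f714fc_ag/Def/Gen.lean`.
The family is the degeneration of `P^1 x P^1` to the Hirzebruch surface `F_2`.
-/

namespace Pool.Agent.Results.MP_f714fc_ag.NotLsc

open Fdim

/-- There is a smooth projective family `F` of smooth projective varieties over the complex line
such that the Fano dimension of the fibre over `t` is at most two for all `t ≠ 0`, the Fano
dimension of the fibre over `0` is greater than two, and therefore the set of all `t` with Fano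
dimension at most two is not closed.  This is true for exact functors (`lin` false) and for
complex linear exact functors (`lin` true). -/
theorem result : ∃ F : Family, ∀ lin : Prop,
    (∀ t : ℂ, t ≠ 0 → fdim lin (F.fiber t) ≤ 2) ∧ 2 < fdim lin (F.fiber 0) ∧
      ¬ IsClosed {t : ℂ | fdim lin (F.fiber t) ≤ 2} :=
  not_lower_semicontinuous

end Pool.Agent.Results.MP_f714fc_ag.NotLsc
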